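import Pool.Agent.Helper8.Sey.Basic

/-!
# MP_b6b2d3_co, packet SEY-LOCB: locality with respect to balls
-/

namespace Pool.Agent.Helper39.Sey

open Pool.Agent.Helper8.Sey

open Classical in
/-- A vertex and its neighbours in the near parts. -/
noncomputable def St {V : Type} [Fintype V] (P : Sys V) (v : V) : Finset V :=
  insert v (Finset.univ.filter fun u => P.H.Adj u v ∧ near P.K (P.part u) (P.part v))

open Classical in
/-- The balls. -/
noncomputable def Ba {V : Type} [Fintype V] (P : Sys V) : ℕ → V → Finset V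
  | 0, v => {v}
  | t + 1, v => (St P v).biUnion (Ba P t)

section
variable {V : Type} [Fintype V] (P : Sys V)

theorem self_mem_St (v : V) : v ∈ St P v := by
  classical
  unfold St
  exact Finset.mem_insert_self _ _

theorem mem_St_of {u v : V} (h : P.H.Adj u v) (hn : near P.K (P.part u) (P.part v)) :
    u ∈ St P v := by
  classical
  unfold St
  simp only [Finset.mem_insert, Finset.mem_filter, Finset.mem_univ, true_and]
  exact Or.inr ⟨h, hn⟩

theorem St_symm {u v : V} (h : u ∈ St P v) : v ∈ St P u := by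
  classical
  unfold St at h ⊢
  simp only [Finset.mem_insert, Finset.mem_filter, Finset.mem_univ, true_and] at h ⊢
  rcases h with rfl | ⟨h1, h2⟩
  · exact Or.inl rfl
  · exact Or.inr ⟨h1.symm, near_symm h2⟩

theorem card_St_le (v : V) : (St P v).card ≤ 3 * P.D + 1 := by
  classical
  unfold St
  refine (Finset.card_insert_le _ _).trans (Nat.add_le_add_right ?_ 1)
  obtain ⟨T, hT, hT2⟩ := near_three P.K (P.part v)
  have hsub : (Finset.univ.filter fun u => P.H.Adj u v ∧ near P.K (P.part u) (P.part v)) ⊆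
      T.biUnion (fun m => Finset.univ.filter fun u =>
        (P.H.Adj v u ∧ P.part u = m) ∧ near P.K (P.part v) m) := by
    intro u hu
    simp only [Finset.mem_filter, Finset.mem_univ, true_and, Finset.mem_biUnion] at hu ⊢
    exact ⟨P.part u, hT2 _ (P.part_lt u) (near_symm hu.2), ⟨hu.1.symm, rfl⟩, near_symm hu.2⟩
  refine (Finset.card_le_card hsub).trans ?_
  refine (Finset.card_biUnion_le_card_mul _ _ P.D (fun m _ => ?_)).trans
    (Nat.mul_le_mul_right _ hT)
  by_cases hm : m < P.K ∧ near P.K (P.part v) m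
  · have h1 := P.hnear.2 v m hm.1 hm.2
    rw [Nat.card_eq_fintype_card, Fintype.card_subtype] at h1
    refine le_trans (Finset.card_le_card ?_) h1
    intro u hu
    simp only [Finset.mem_filter, Finset.mem_univ, true_and] at hu ⊢
    exact hu.1
  · rw [Finset.filter_false_of_mem]
    · simp
    · rintro u _ ⟨⟨_, h2⟩, h3⟩
      exact hm ⟨h2 ▸ P.part_lt u, h3⟩

theorem card_Ba_le (t : ℕ) (v : V) : (Ba P t v).card ≤ (3 * P.D + 1) ^ t := by
  classical
  induction t generalizing v with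
  | zero => simp [Ba]
  | succ t ih =>
    have h1 : Ba P (t + 1) v = (St P v).biUnion (Ba P t) := rfl
    rw [h1, pow_succ, mul_comm]
    exact (Finset.card_biUnion_le_card_mul _ _ _ fun w _ => ih w).trans
      (Nat.mul_le_mul_right _ (card_St_le P v))

theorem mem_Ba_succ {t : ℕ} {v x : V} : x ∈ Ba P (t + 1) v ↔ ∃ w ∈ St P v, x ∈ Ba P t w := by
  classical
  have h1 : Ba P (t + 1) v = (St P v).biUnion (Ba P t) := rfl
  rw [h1, Finset.mem_biUnion]

theorem mem_Ba_zero {v x : V} : x ∈ Ba P 0 v ↔ x = v := by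
  classical
  have h1 : Ba P 0 v = {v} := rfl
  rw [h1, Finset.mem_singleton]

theorem self_mem_Ba (t : ℕ) (v : V) : v ∈ Ba P t v := by
  induction t with
  | zero => exact (mem_Ba_zero P).2 rfl
  | succ t ih => exact (mem_Ba_succ P).2 ⟨v, self_mem_St P v, ih⟩

theorem Ba_comp {s t : ℕ} {v x y : V} (h1 : x ∈ Ba P s v) (h2 : y ∈ Ba P t x) :
    y ∈ Ba P (s + t) v := by
  induction s generalizing v with
  | zero =>
    rw [(mem_Ba_zero P).1 h1] at h2
    rwa [zero_add]
  | succ s ih =>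
    obtain ⟨w, hw, hx⟩ := (mem_Ba_succ P).1 h1
    have h3 : s + 1 + t = s + t + 1 := by omega
    rw [h3]
    exact (mem_Ba_succ P).2 ⟨w, hw, ih hx⟩

theorem Ba_symm {t : ℕ} {v x : V} (h : x ∈ Ba P t v) : v ∈ Ba P t x := by
  induction t generalizing v with
  | zero =>
    rw [(mem_Ba_zero P).1 h]
    exact self_mem_Ba P 0 v
  | succ t ih =>
    obtain ⟨w, hw, hx⟩ := (mem_Ba_succ P).1 h
    refine Ba_comp P (ih hx) ((mem_Ba_succ P).2 ⟨v, St_symm P hw, self_mem_Ba P 0 v⟩)

theorem Ba_mono {s t : ℕ} (h : s ≤ t) {v x : V} (hx : x ∈ Ba P s v) : x ∈ Ba P t v := by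
  obtain ⟨r, rfl⟩ := Nat.exists_eq_add_of_le h
  exact Ba_comp P hx (self_mem_Ba P r x)

theorem Ba_step {t : ℕ} {u v x : V} (h : u ∈ St P v) (hx : x ∈ Ba P t u) :
    x ∈ Ba P (t + 1) v := (mem_Ba_succ P).2 ⟨u, h, hx⟩

variable (ω ω' : P.Om)

theorem iter_loc (t : ℕ) (v : V) (h : ∀ w ∈ Ba P t v, ω w = ω' w) :
    (P.colF ω)^[t] (fun v => (ω v).1 0) v = (P.colF ω')^[t] (fun v => (ω' v).1 0) v := by
  induction t generalizing v with
  | zero =>
    simp only [Function.iterate_zero, id]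
    rw [h v (self_mem_Ba P 0 v)]
  | succ t ih =>
    rw [Function.iterate_succ_apply', Function.iterate_succ_apply']
    have h1 : P.colF ω ((P.colF ω)^[t] (fun v => (ω v).1 0)) v =
        P.colF ω ((P.colF ω')^[t] (fun v => (ω' v).1 0)) v := by
      apply P.colF_congr
      intro u h1 h2 _
      exact ih u fun w hw => h w (Ba_step P (mem_St_of P h1 (Or.inl h2)) hw)
    rw [h1]
    unfold Sys.colF
    rw [h v (self_mem_Ba P (t + 1) v)]

theorem cls_loc {t : ℕ} (ht : P.D + 1 ≤ t) (v : V) (h : ∀ w ∈ Ba P t v, ω w = ω' w) :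
    P.cls ω v = P.cls ω' v := by
  unfold Sys.cls Sys.col
  rw [iter_loc P ω ω' (P.D + 1) v fun w hw => h w (Ba_mono P ht hw)]

theorem UT_loc (R : ℕ → V → ZMod P.N → ℕ) (j : ℕ) (v : V)
    (h : ∀ w ∈ Ba P (P.D + 1 + j) v, ω w = ω' w) :
    (P.U R ω j v ↔ P.U R ω' j v) ∧ (P.T R ω j v ↔ P.T R ω' j v) := by
  induction j generalizing v with
  | zero =>
    refine ⟨Iff.rfl, ?_⟩
    have hc := cls_loc P ω ω' (t := P.D + 1 + 0) (by omega) v h
    have hv := h v (self_mem_Ba P _ v)
    show P.coin (ω v) 0 < R 0 v (P.cls ω v) ↔ P.coin (ω' v) 0 < R 0 v (P.cls ω' v)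
    rw [hc, hv]
  | succ j ih =>
    have hc := cls_loc P ω ω' (t := P.D + 1 + (j + 1)) (by omega) v h
    have hv := h v (self_mem_Ba P _ v)
    have h0 := ih v fun w hw => h w (Ba_mono P (by omega) hw)
    have hU : P.U R ω (j + 1) v ↔ P.U R ω' (j + 1) v := by
      rw [P.U_succ, P.U_succ, h0.1, h0.2]
    refine ⟨hU, ?_⟩
    have hst : ∀ u ∈ St P v, P.cls ω u = P.cls ω' u ∧ (P.T R ω j u ↔ P.T R ω' j u) := by
      intro u hu
      have hu' : ∀ w ∈ Ba P (P.D + 1 + j) u, ω w = ω' w := fun w hw => h w (Ba_step P hu hw)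
      exact ⟨cls_loc P ω ω' (t := P.D + 1 + j) (by omega) u hu', (ih u hu').2⟩
    have hF : P.Fo R ω (j + 1) v ↔ P.Fo R ω' (j + 1) v := by
      constructor
      · rintro ⟨u, h1, h2, h3⟩
        have h4 := hst u (mem_St_of P h1 (P.near_of_succ ω u v h2))
        exact ⟨u, h1, by rw [← hc, ← h4.1]; exact h2, h4.2.1 h3⟩
      · rintro ⟨u, h1, h2, h3⟩
        have h4 := hst u (mem_St_of P h1 (P.near_of_succ ω' u v h2))
        exact ⟨u, h1, by rw [hc, h4.1]; exact h2, h4.2.2 h3⟩
    rw [P.T_iff, P.T_iff, hU, hF, hc, hv]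

end

theorem goalLOCB : GoalLOCB := by
  classical
  intro V _ P R
  refine ⟨fun v => (Ba P (P.D + 1 + P.J) v : Set V), ?_, ?_⟩
  · intro v ω ω' h
    refine ⟨cls_loc P ω ω' (t := P.D + 1 + P.J) (by omega) v fun w hw => h w hw, ?_⟩
    intro j hj hT
    exact (UT_loc P ω ω' R j v fun w hw => h w (Ba_mono P (by omega) hw)).2.1 hT
  · intro v
    refine le_trans ?_ (card_Ba_le P (2 * (P.D + 1 + P.J)) v)
    rw [Nat.card_eq_fintype_card, Fintype.card_subtype]
    apply Finset.card_le_card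
    intro t ht
    simp only [Finset.mem_filter, Finset.mem_univ, true_and] at ht
    rw [Set.not_disjoint_iff] at ht
    obtain ⟨x, hx1, hx2⟩ := ht
    have := Ba_comp P (Finset.mem_coe.1 hx1) (Ba_symm P (Finset.mem_coe.1 hx2))
    rwa [← two_mul] at this

end Pool.Agent.Helper39.Sey
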